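import Pool.Graph.R_seed8.Y314.HM.Cooper

/-!
# One group, many word-defined group operations (helper67)

Builds on the library's solution of Cooper's problem (`Pool.Graph.R_seed8.Y314.HM.Cooper`).
-/

set_option autoImplicit false

namespace Pool.Agent.helper67CG

open Pool.Agent.TH54.BU Pool.Agent.Y45.MON Pool.Agent.Y872.MON Pool.Agent.Y314.HM

/-- the extension property of the group `L` in `coreL` -/
def HExt {r : ℕ} (w : WP r) (p : ℕ) (L : Type) [Group L] : Prop :=
  ∀ F : Fin r → L → L → ℤ, (∀ j a b, a * b = b * a → F j a b = 0) →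
    (∀ j g c d, F j (g * c * g⁻¹) (g * d * g⁻¹) = F j c d) →
    ∃ B : CE L, (∀ (j : Fin r) (a b : B.A), vv w j a b ^ p = B.z ^ F j (B.φ a) (B.φ b)) ∧
      ((∀ j a b, (p : ℤ) ∣ F j a b) → ∀ g : L, ∃ b : B.A, B.φ b = g ∧ b ^ p = 1)

open Classical in
/-- the extension in which exactly one of the words fails to be a law -/
theorem ext1 {r : ℕ} (w : WP r) (p : ℕ) (hp : p ≠ 0) (L : Type) [Group L]
    (hcyc : ∀ a b : L, a * b = b * a → ∃ (c : L) (i k : ℤ), a = c ^ i ∧ b = c ^ k)
    (hext : HExt w p L) (j0 : Fin r) :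
    ∃ (B : CE L) (F : L → L → ℤ) (κ : B.A → ℤ),
      (∀ (j : Fin r) (a b : B.A), vv w j a b ^ p =
        B.z ^ (if B.φ a * B.φ b = B.φ b * B.φ a then 0 else if j = j0 then (p : ℤ) else 0)) ∧
      (∀ a b, a * b = b * a → F a b = 0) ∧
      (∀ g c d, F (g * c * g⁻¹) (g * d * g⁻¹) = F c d) ∧
      (∀ a b c, F a b + F (a * b) c = F b c + F a (b * c)) ∧
      (∀ b b' : B.A, κ (b * b') = κ b + κ b' + F (B.φ b) (B.φ b')) ∧
      (∀ k : ℤ, κ (B.z ^ k) = k) ∧
      (∀ g : L, ∃ b : B.A, B.φ b = g ∧ κ b = 0) := by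
  have hp0 : (p : ℤ) ≠ 0 := by exact_mod_cast hp
  have hcm : ∀ g a b : L, (g * a * g⁻¹) * (g * b * g⁻¹) = (g * b * g⁻¹) * (g * a * g⁻¹) ↔
      a * b = b * a := by
    intro g a b
    have e1 : (g * a * g⁻¹) * (g * b * g⁻¹) = g * (a * b) * g⁻¹ := by group
    have e2 : (g * b * g⁻¹) * (g * a * g⁻¹) = g * (b * a) * g⁻¹ := by group
    rw [e1, e2]
    constructor
    · intro h
      exact mul_left_cancel (mul_right_cancel h)
    · intro h
      rw [h]
  obtain ⟨B, hB1, hB2⟩ := hext
    (fun j a b => if a * b = b * a then 0 else if j = j0 then (p : ℤ) else 0)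
    (fun j a b h => if_pos h) (fun j g c d => by simp only [hcm])
  have hB3 := hB2 (fun j a b => by
    split_ifs
    · exact dvd_zero _
    · exact dvd_rfl
    · exact dvd_zero _)
  choose s hs1 hs2 using hB3
  have hzi : ∀ (k l : ℤ), B.z ^ k = B.z ^ l → k = l := by
    intro k l h
    have h1 : B.z ^ (k - l) = 1 := by
      rw [zpow_sub]
      exact mul_inv_eq_one.2 h
    have := B.inf _ h1
    omega
  have huniq : ∀ b : B.A, b ^ p = 1 → b = s (B.φ b) := by
    intro b hb
    obtain ⟨k, hk⟩ := B.lift (a := b) (b := s (B.φ b)) (by rw [hs1])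
    have c1 : Commute (s (B.φ b)) (B.z ^ k) := B.cz _ _
    rw [hk, c1.mul_pow, hs2, one_mul, ← zpow_natCast, ← zpow_mul] at hb
    have h1 := B.inf _ hb
    have h2 : k = 0 := (mul_eq_zero.1 h1).resolve_right hp0
    rw [h2, zpow_zero, mul_one] at hk
    exact hk
  choose F hF using fun a b : L => B.lift (a := s a * s b) (b := s (a * b))
    (by rw [map_mul, hs1, hs1, hs1])
  have hspow : ∀ (c : L) (i : ℤ), s (c ^ i) = s c ^ i := by
    intro c i
    have := huniq (s c ^ i) (by
      rw [← zpow_natCast, ← zpow_mul, mul_comm, zpow_mul, zpow_natCast, hs2, one_zpow])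
    rw [map_zpow, hs1] at this
    exact this.symm
  have hsconj : ∀ g c : L, s (g * c * g⁻¹) = s g * s c * (s g)⁻¹ := by
    intro g c
    have := huniq (s g * s c * (s g)⁻¹) (by rw [conj_pow, hs2, mul_one, mul_inv_cancel])
    rw [map_mul, map_mul, map_inv, hs1, hs1] at this
    exact this.symm
  have hs0 : s 1 = 1 := by
    have := huniq 1 (one_pow _)
    rw [map_one] at this
    exact this.symm
  have hF1 : ∀ a b : L, a * b = b * a → F a b = 0 := by
    intro a b h
    obtain ⟨c, i, k, rfl, rfl⟩ := hcyc a b h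
    have h1 := hF (c ^ i) (c ^ k)
    rw [hspow, hspow, ← zpow_add, ← zpow_add, hspow] at h1
    exact B.inf _ (left_eq_mul.1 h1)
  have hF2 : ∀ g c d : L, F (g * c * g⁻¹) (g * d * g⁻¹) = F c d := by
    intro g c d
    have h1 := hF (g * c * g⁻¹) (g * d * g⁻¹)
    have e1 : (g * c * g⁻¹) * (g * d * g⁻¹) = g * (c * d) * g⁻¹ := by group
    rw [e1, hsconj, hsconj, hsconj] at h1
    have e2 : s g * s c * (s g)⁻¹ * (s g * s d * (s g)⁻¹) = s g * (s c * s d) * (s g)⁻¹ := by
      group
    rw [e2, hF c d] at h1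
    have e3 : s g * (s (c * d) * B.z ^ F c d) * (s g)⁻¹ =
        s g * s (c * d) * (s g)⁻¹ * B.z ^ F c d := by
      have : s g * (s (c * d) * B.z ^ F c d) * (s g)⁻¹ =
        s g * s (c * d) * (B.z ^ F c d * (s g)⁻¹) := by group
      rw [this, ← B.cz]
      group
    rw [e3] at h1
    exact (hzi _ _ (mul_left_cancel h1)).symm
  have hF3 : ∀ a b c : L, F a b + F (a * b) c = F b c + F a (b * c) := by
    intro a b c
    have h1 : s a * s b * s c = s (a * b * c) * B.z ^ (F a b + F (a * b) c) := by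
      rw [hF a b, mul_assoc, ← B.cz, ← mul_assoc, hF (a * b) c, mul_assoc, ← zpow_add,
        add_comm]
    have h2 : s a * (s b * s c) = s (a * (b * c)) * B.z ^ (F b c + F a (b * c)) := by
      rw [hF b c, ← mul_assoc, hF a (b * c), mul_assoc, ← zpow_add, add_comm]
    rw [mul_assoc, h2, ← mul_assoc a b c] at h1
    exact (hzi _ _ (mul_left_cancel h1)).symm
  choose κ hκ using fun b : B.A => B.lift (a := b) (b := s (B.φ b)) (by rw [hs1])
  refine ⟨B, F, κ, hB1, hF1, hF2, hF3, ?_, ?_, ?_⟩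
  · intro b b'
    have h2 := hκ (b * b')
    have h3 : b * b' = s (B.φ (b * b')) *
        B.z ^ (κ b + κ b' + F (B.φ b) (B.φ b')) := by
      conv_lhs => rw [hκ b, hκ b']
      have e1 : s (B.φ b) * B.z ^ κ b * (s (B.φ b') * B.z ^ κ b') =
          s (B.φ b) * (B.z ^ κ b * s (B.φ b')) * B.z ^ κ b' := by group
      rw [e1, ← B.cz, ← mul_assoc, hF, map_mul, mul_assoc, mul_assoc, ← zpow_add,
        ← zpow_add]
      congr 2
      ring
    exact hzi _ _ (mul_left_cancel (h2.symm.trans h3))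
  · intro k
    have := hκ (B.z ^ k)
    rw [B.zz, hs0, one_mul] at this
    exact (hzi _ _ this).symm
  · intro g
    refine ⟨s g, hs1 g, ?_⟩
    have := hκ (s g)
    rw [hs1] at this
    exact B.inf _ (left_eq_mul.1 this)

theorem prod_zpow_map {G ι : Type} [Group G] (z : G) (f : ι → ℤ) (l : List ι) :
    (l.map (fun i => z ^ f i)).prod = z ^ (l.map f).sum := by
  induction l with
  | nil => simp
  | cons a l ih => rw [List.map_cons, List.prod_cons, List.map_cons, List.sum_cons, ih, zpow_add]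

/-- the words which define the operations -/
def vword {R : ℕ} (w : WP R) (p : ℕ) {r : ℕ} (ι : Fin r → Fin R) (m : Fin r → ℤ) {G : Type}
    [Group G] (x y : G) : G :=
  ((List.finRange r).map (fun i => (vv w (ι i) x y ^ p) ^ m i)).prod

theorem map_vword {R : ℕ} (w : WP R) (p : ℕ) {r : ℕ} (ι : Fin r → Fin R) (m : Fin r → ℤ)
    {G G' : Type} [Group G] [Group G'] (φ : G →* G') (x y : G) :
    φ (vword w p ι m x y) = vword w p ι m (φ x) (φ y) := by
  unfold vword
  rw [map_list_prod, List.map_map]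
  congr 1
  apply List.map_congr_left
  intro i _
  simp [map_vv]

theorem vword_eq {R : ℕ} (w : WP R) (p : ℕ) {r : ℕ} (ι : Fin r → Fin R) (m : Fin r → ℤ)
    {G : Type} [Group G] (x y : G) (Z : Multiplicative ℤ →* G) (f : Fin r → ℤ)
    (h : ∀ i, vv w (ι i) x y ^ p = Z (Multiplicative.ofAdd (f i))) :
    vword w p ι m x y = Z (Multiplicative.ofAdd (∑ i, f i * m i)) := by
  unfold vword
  have h1 : ∀ i, (vv w (ι i) x y ^ p) ^ m i = Z (Multiplicative.ofAdd 1) ^ (f i * m i) := by
    intro i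
    have e : Multiplicative.ofAdd (f i) = (Multiplicative.ofAdd (1 : ℤ)) ^ f i := by
      rw [← ofAdd_zsmul]; simp
    rw [h, e, map_zpow, zpow_mul]
  simp only [h1]
  rw [prod_zpow_map, ← map_zpow, ← ofAdd_zsmul, ← Fin.sum_univ_def]
  simp

open Classical in
/-- **Main construction.** -/
theorem many (r : ℕ) : ∃ n0 : ℕ, ∀ p : ℕ, p.Prime → n0 ≤ p →
    ∃ (G : Type) (_ : Group G) (H : (Fin r → ℤ) → Type) (_ : ∀ m, Group (H m))
      (e : ∀ m, H m ≃ G) (v : (Fin r → ℤ) → FreeGroup (Fin 2))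
      (u : (Fin r → ℤ) → FreeGroup ℕ),
      (∀ x y : G, x ^ p * y = y * x ^ p) ∧
      (∀ (m : Fin r → ℤ) (a b : H m),
        e m (a * b) = FreeGroup.lift (![e m a, e m b] : Fin 2 → G) (v m)) ∧
      (∀ a b : H 0, e 0 (a * b) = e 0 a * e 0 b) ∧
      ∀ m c : Fin r → ℤ, (∀ f : ℕ → H m, FreeGroup.lift f (u c) = 1) ↔ ∑ j, c j * m j = 0 := by
  obtain ⟨w, n0, hδ, hcore⟩ := coreL (r + r)
  refine ⟨n0, fun p hp hpn => ?_⟩
  obtain ⟨L, iL, hexp, ⟨x0, y0, -, hxy⟩, hcyc, -, hext⟩ := hcore p hp hpn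
  have hp0 : (p : ℤ) ≠ 0 := by exact_mod_cast hp.ne_zero
  choose B F κ hB hF1 hF2 hF3 hκ1 hκ2 hκ3 using
    fun i : Fin r => ext1 w p hp.ne_zero L hcyc hext (Fin.castAdd r i)
  obtain ⟨A, hA, -⟩ := hext
    (fun k a b => Fin.addCases (motive := fun _ => ℤ) (fun _ => 0) (fun i => F i a b) k)
    (fun j a b h => by
      refine Fin.addCases (fun i => ?_) (fun i => ?_) j
      · simp only [Fin.addCases_left]
      · simp only [Fin.addCases_right]; exact hF1 i a b h)
    (fun j g c d => by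
      refine Fin.addCases (fun i => ?_) (fun i => ?_) j
      · simp only [Fin.addCases_left]
      · simp only [Fin.addCases_right]; exact hF2 i g c d)
  have hA0 : ∀ (j : Fin r) (a b : A.A), vv w (Fin.castAdd r j) a b ^ p = 1 := by
    intro j a b
    rw [hA, Fin.addCases_left, zpow_zero]
  have hA1 : ∀ (j : Fin r) (a b : A.A), vv w (Fin.natAdd r j) a b ^ p =
      A.z ^ F j (A.φ a) (A.φ b) := by
    intro j a b
    rw [hA, Fin.addCases_right]
  choose H iH e he using fun m : Fin r → ℤ => twist A (fun a b => ∑ i, F i a b * m i)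
    (fun a b c => by
      rw [← Finset.sum_add_distrib, ← Finset.sum_add_distrib]
      refine Finset.sum_congr rfl fun i _ => ?_
      rw [← add_mul, ← add_mul, hF3])
    (fun a => Finset.sum_eq_zero fun i _ => by
      rw [hF1 i _ _ (by rw [inv_mul_cancel, mul_inv_cancel]), zero_mul])
    (fun a => Finset.sum_eq_zero fun i _ => by
      rw [hF1 i _ _ (by rw [one_mul, mul_one]), zero_mul])
  -- the homomorphism from ℤ to the centre
  let Z : Multiplicative ℤ →* A.A := zpowersHom A.A A.z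
  have hZ : ∀ k : ℤ, Z (Multiplicative.ofAdd k) = A.z ^ k := fun k => rfl
  have hζ : ∀ m : Fin r → ℤ, ∃ ζ : Multiplicative ℤ →* H m,
      ∀ k : ℤ, ζ (Multiplicative.ofAdd k) = (e m).symm (A.z ^ k) := by
    intro m
    refine ⟨MonoidHom.mk' (fun k => (e m).symm (A.z ^ (Multiplicative.toAdd k))) ?_, fun k => rfl⟩
    intro k l
    apply (e m).injective
    rw [he, (e m).apply_symm_apply, (e m).apply_symm_apply, (e m).apply_symm_apply, A.zz, A.zz,
      toAdd_mul, zpow_add]
    have : ∑ i, F i 1 1 * m i = 0 := Finset.sum_eq_zero fun i _ => by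
      rw [hF1 i _ _ rfl, zero_mul]
    rw [this, zpow_zero, mul_one]
  choose ζ hζ using hζ
  -- the fibre product
  let P : Subgroup (A.A × (∀ i, (B i).A)) :=
    { carrier := {q | ∀ i, A.φ q.1 = (B i).φ (q.2 i)}
      one_mem' := by intro i; simp
      mul_mem' := by
        intro q q' h h' i
        have h1 := h i
        have h2 := h' i
        show A.φ (q.1 * q'.1) = (B i).φ (q.2 i * q'.2 i)
        rw [map_mul, map_mul, h1, h2]
      inv_mem' := by
        intro q h i
        have h1 := h i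
        show A.φ (q.1⁻¹) = (B i).φ ((q.2 i)⁻¹)
        rw [map_inv, map_inv, h1] }
  have hP : ∀ (q : P) (i : Fin r), A.φ q.1.1 = (B i).φ (q.1.2 i) := fun q => q.2
  have hτ : ∀ m : Fin r → ℤ, ∃ τ : P →* H m,
      ∀ q : P, τ q = (e m).symm (q.1.1 * A.z ^ (∑ i, κ i (q.1.2 i) * m i)) := by
    intro m
    refine ⟨MonoidHom.mk' (fun q => (e m).symm (q.1.1 * A.z ^ (∑ i, κ i (q.1.2 i) * m i))) ?_,
      fun q => rfl⟩
    intro q q'
    apply (e m).injective
    rw [he, (e m).apply_symm_apply, (e m).apply_symm_apply, (e m).apply_symm_apply]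
    have h1 : ∑ i, κ i ((q * q' : P).1.2 i) * m i =
        (∑ i, κ i (q.1.2 i) * m i) + (∑ i, κ i (q'.1.2 i) * m i) +
          ∑ i, F i (A.φ q.1.1) (A.φ q'.1.1) * m i := by
      rw [← Finset.sum_add_distrib, ← Finset.sum_add_distrib]
      refine Finset.sum_congr rfl fun i _ => ?_
      show κ i (q.1.2 i * q'.1.2 i) * m i = _
      rw [hκ1, ← hP, ← hP]
      ring
    show (q.1.1 * q'.1.1) * A.z ^ (∑ i, κ i ((q * q' : P).1.2 i) * m i) = _
    rw [h1, map_mul, map_mul, A.zz, A.zz, mul_one, mul_one]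
    generalize (∑ i, κ i (q.1.2 i) * m i) = S
    generalize (∑ i, κ i (q'.1.2 i) * m i) = S'
    generalize (∑ i, F i (A.φ q.1.1) (A.φ q'.1.1) * m i) = T
    have e1 : q.1.1 * A.z ^ S * (q'.1.1 * A.z ^ S') =
        q.1.1 * (A.z ^ S * q'.1.1) * A.z ^ S' := by group
    rw [e1, ← A.cz]
    have e2 : q.1.1 * (q'.1.1 * A.z ^ S) * A.z ^ S' =
        q.1.1 * q'.1.1 * A.z ^ (S + S') := by group
    rw [e2, mul_assoc _ (A.z ^ _), ← zpow_add]
  choose τ hτ using hτ
  have hsurj : ∀ m, Function.Surjective (τ m) := by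
    intro m h
    choose b hb1 hb2 using fun i => hκ3 i (A.φ (e m h))
    refine ⟨⟨(e m h, b), fun i => (hb1 i).symm⟩, ?_⟩
    rw [hτ]
    have : ∑ i, κ i (b i) * m i = 0 := Finset.sum_eq_zero fun i _ => by rw [hb2, zero_mul]
    show (e m).symm (e m h * A.z ^ (∑ i, κ i (b i) * m i)) = h
    rw [this, zpow_zero, mul_one, (e m).symm_apply_apply]
  -- the values of the words in `H m`
  have hval : ∀ (m : Fin r → ℤ) (j : Fin r) (h h' : H m),
      vv w (Fin.castAdd r j) h h' ^ p = ζ m (Multiplicative.ofAdd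
        (if A.φ (e m h) * A.φ (e m h') = A.φ (e m h') * A.φ (e m h) then 0
          else (p : ℤ) * m j)) := by
    intro m j h h'
    obtain ⟨q, rfl⟩ := hsurj m h
    obtain ⟨q', rfl⟩ := hsurj m h'
    have hφ : ∀ q : P, A.φ (e m (τ m q)) = A.φ q.1.1 := by
      intro q
      rw [hτ, (e m).apply_symm_apply, map_mul, A.zz, mul_one]
    rw [hφ, hφ, ← map_vv, ← map_pow, hτ, hζ]
    have e1 : (vv w (Fin.castAdd r j) q q' ^ p : P).1.1 = 1 := by
      have e2 := map_vv ((MonoidHom.fst A.A (∀ i, (B i).A)).comp P.subtype) w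
        (Fin.castAdd r j) q q'
      show ((MonoidHom.fst A.A (∀ i, (B i).A)).comp P.subtype)
        (vv w (Fin.castAdd r j) q q' ^ p) = _
      rw [map_pow, e2, hA0]
    have e3 : ∀ i, (vv w (Fin.castAdd r j) q q' ^ p : P).1.2 i = (B i).z ^
        (if A.φ q.1.1 * A.φ q'.1.1 = A.φ q'.1.1 * A.φ q.1.1 then 0
          else if Fin.castAdd r j = Fin.castAdd r i then (p : ℤ) else 0) := by
      intro i
      have e2 := map_vv (((Pi.evalMonoidHom (fun i => (B i).A) i).comp
        (MonoidHom.snd A.A (∀ i, (B i).A))).comp P.subtype) w (Fin.castAdd r j) q q'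
      show (((Pi.evalMonoidHom (fun i => (B i).A) i).comp
        (MonoidHom.snd A.A (∀ i, (B i).A))).comp P.subtype)
          (vv w (Fin.castAdd r j) q q' ^ p) = _
      rw [map_pow, e2, hB]
      show (B i).z ^ (if (B i).φ (q.1.2 i) * (B i).φ (q'.1.2 i) =
        (B i).φ (q'.1.2 i) * (B i).φ (q.1.2 i) then (0 : ℤ) else _) = _
      rw [← hP, ← hP]
    rw [e1, one_mul]
    congr 2
    have e4 : ∀ i, κ i ((vv w (Fin.castAdd r j) q q' ^ p : P).1.2 i) * m i =
        if i = j then (if A.φ q.1.1 * A.φ q'.1.1 = A.φ q'.1.1 * A.φ q.1.1 then 0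
          else (p : ℤ) * m j) else 0 := by
      intro i
      rw [e3, hκ2]
      by_cases hij : i = j
      · subst hij
        rw [if_pos rfl, if_pos rfl]
        split_ifs <;> simp
      · rw [if_neg hij]
        have : ¬ (Fin.castAdd r j = Fin.castAdd r i) := fun h =>
          hij (Fin.castAdd_injective r r h).symm
        rw [if_neg this]
        split_ifs <;> simp
    rw [Finset.sum_congr rfl (fun i _ => e4 i)]
    simp
  refine ⟨A.A, inferInstance, H, iH, e,
    fun m => FreeGroup.of 0 * FreeGroup.of 1 *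
      vword w p (Fin.natAdd r) m (FreeGroup.of 0) (FreeGroup.of 1),
    fun c => vword w p (Fin.castAdd r) c (FreeGroup.of 0) (FreeGroup.of 1), ?_, ?_, ?_, ?_⟩
  · intro x y
    obtain ⟨k, hk⟩ := A.ker (x ^ p) (by rw [map_pow, hexp])
    rw [hk, A.cz]
  · intro m a b
    rw [he, map_mul, map_mul, map_vword, FreeGroup.lift_apply_of, FreeGroup.lift_apply_of]
    show _ = e m a * e m b * vword w p (Fin.natAdd r) m (e m a) (e m b)
    rw [vword_eq w p (Fin.natAdd r) m (e m a) (e m b) Z (fun i => F i (A.φ (e m a)) (A.φ (e m b)))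
      (fun i => by rw [hA1, hZ]), hZ]
  · intro a b
    rw [he]
    simp
  · intro m c
    have key : ∀ f : ℕ → H m, FreeGroup.lift f
        (vword w p (Fin.castAdd r) c (FreeGroup.of 0) (FreeGroup.of 1)) =
        (e m).symm (A.z ^ (if A.φ (e m (f 0)) * A.φ (e m (f 1)) =
          A.φ (e m (f 1)) * A.φ (e m (f 0)) then 0 else (p : ℤ) * ∑ j, c j * m j)) := by
      intro f
      rw [map_vword, FreeGroup.lift_apply_of, FreeGroup.lift_apply_of,
        vword_eq w p (Fin.castAdd r) c (f 0) (f 1) (ζ m) _ (fun i => hval m i (f 0) (f 1)), hζ]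
      congr 2
      split_ifs with h
      · simp
      · rw [Finset.mul_sum]
        exact Finset.sum_congr rfl fun i _ => by ring
    have hone : (1 : H m) = (e m).symm (A.z ^ (0 : ℤ)) := by
      rw [← hζ, ofAdd_zero, map_one]
    constructor
    · intro hf
      obtain ⟨a, ha⟩ := A.sur x0
      obtain ⟨a', ha'⟩ := A.sur y0
      have h1 := hf (fun n => if n = 0 then (e m).symm a else (e m).symm a')
      rw [key, hone] at h1
      have h2 := (e m).symm.injective h1
      simp only [if_pos, if_neg one_ne_zero, (e m).apply_symm_apply, ha, ha', if_neg hxy,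
        zpow_zero] at h2
      have h3 := A.inf _ h2
      exact (mul_eq_zero.1 h3).resolve_left hp0
    · intro hs f
      rw [key, hs, mul_zero, ite_self, hone]

end Pool.Agent.helper67CG
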